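import Mathlib
import Pool.Agent.Q266.QCongr
import Pool.Agent.Q266.QDixon2

set_option autoImplicit false

/-!
Q1: both truncations are `≡ 0` modulo `Φ_n(q)^2` for `n ≡ 3 (mod 4)`.
-/

namespace Pool.Agent.Results.MP_846daf_nt.SquareCongruence

open Polynomial Finset

/-- The field of rational functions in `q`. -/
abbrev K : Type := RatFunc ℤ

/-- The variable. -/
noncomputable abbrev q : K := RatFunc.X

/-- `(a; x)_m`. -/
noncomputable def poch (a x : K) (m : ℕ) : K := ∏ j ∈ range m, (1 - a * x ^ j)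

/-- `t_k(q)`. -/
noncomputable def t (k : ℕ) : K :=
  q ^ k * ((1 + q ^ (4 * k + 1)) * poch (q ^ 2) (q ^ 4) k ^ 3) /
    ((1 + q) * poch (q ^ 4) (q ^ 4) k ^ 3)

/-- `S_N(q)`, the sum over `0 ≤ k ≤ N`. -/
noncomputable def S (N : ℕ) : K := ∑ k ∈ range (N + 1), t k

/-- `F ≡ 0 (mod P)`: in a reduced fraction `F = A / B` the denominator is coprime to `P` and
`P` divides the numerator. -/
def CongrZero (F : K) (P : ℤ[X]) : Prop :=
  ∃ A B : ℤ[X], B ≠ 0 ∧ IsRelPrime A B ∧ F = algebraMap ℤ[X] K A / algebraMap ℤ[X] K B ∧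
    IsRelPrime B P ∧ P ∣ A

theorem result : ∀ n r : ℕ, n % 4 = 3 → 1 ≤ r →
    CongrZero (S (r * n - 1)) (cyclotomic n ℤ ^ 2) ∧
      CongrZero (S (r * n + (n - 1) / 2)) (cyclotomic n ℤ ^ 2) := by
  intro n r hn hr
  have hc : ∀ k, t k = Q266.QDixon.t k * (1 + q ^ 1)⁻¹ := by
    intro k
    simp only [t, Q266.QDixon.t, Q266.QWatson.Bf, poch, Q266.QVal.poch, pow_one]
    rw [div_pow]
    generalize (∏ j ∈ range k, (1 - q ^ 2 * (q ^ 4) ^ j)) = a
    generalize (∏ j ∈ range k, (1 - q ^ 4 * (q ^ 4) ^ j)) = b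
    rw [div_eq_mul_inv, div_eq_mul_inv, mul_inv]
    ring
  have h1 : n = 2 * ((n - 1) / 2) + 1 := by omega
  have h2 : (n - 1) / 2 % 2 = 1 := by omega
  have hp := Q266.QVal.cyc_prime (d := n) (by omega)
  have hrn : 1 ≤ r * n := Nat.one_le_iff_ne_zero.2 (Nat.mul_ne_zero (by omega) (by omega))
  have hv := ((Q266.QDixon.V_one_add (n := n) (by omega) 1 (by norm_num) (by omega)).inv hp).toI hp
    (f := 0) (by norm_num)
  constructor
  · apply Q266.QVal.reduced_of_I hp
    unfold S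
    rw [Nat.sub_add_cancel hrn, Finset.sum_congr rfl fun k _ => hc k, ← Finset.sum_mul]
    exact (Q266.QDixon.main_a n _ r h1 h2).mul hp hv
  · apply Q266.QVal.reduced_of_I hp
    unfold S
    rw [add_assoc, Finset.sum_congr rfl fun k _ => hc k, ← Finset.sum_mul]
    exact (Q266.QDixon.main_b n _ r h1 h2).mul hp hv

end Pool.Agent.Results.MP_846daf_nt.SquareCongruence
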